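import Pool.Agent.Lib_MP_1858fb_w.FamSys
import Pool.Agent.Lib_MP_1858fb_s.Conv

/-!
# MP_0ac1ea_ag: certificates of bounded degree
-/

set_option autoImplicit false

namespace Pool.Agent.RC

open Polynomial Pool.Agent.VF

variable {k : Type} [Field k]

theorem exists_bezout_bound [IsAlgClosed k] {s M : ℕ} (g : Fin s → k[X])
    (hM : ∀ a, (g a).natDegree ≤ M) (hg : ∀ x : k, ∃ a, (g a).eval x ≠ 0) :
    ∃ c : Fin s → k[X], (∀ a, (c a).natDegree ≤ M) ∧ ∑ a, c a * g a = 1 := by
  classical
  obtain ⟨a0, ha0⟩ := hg 0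
  have hr : g a0 ≠ 0 := by
    intro h
    rw [h, eval_zero] at ha0
    exact ha0 rfl
  have htop : Ideal.span (Set.range g) = ⊤ := by
    obtain ⟨h, hh⟩ := (IsPrincipalIdealRing.principal (Ideal.span (Set.range g))).principal
    have hh' : Ideal.span (Set.range g) = Ideal.span {h} := hh
    have hdvd : ∀ a, h ∣ g a := by
      intro a
      rw [← Ideal.mem_span_singleton, ← hh']
      exact Ideal.subset_span ⟨a, rfl⟩
    by_contra hne
    have hnu : ¬ IsUnit h := by
      intro hu
      apply hne
      rw [hh', Ideal.span_singleton_eq_top]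
      exact hu
    have h0 : h ≠ 0 := by
      intro h0
      have := hdvd a0
      rw [h0, zero_dvd_iff] at this
      exact hr this
    have hdeg : h.degree ≠ 0 := by
      intro hd
      exact hnu (isUnit_iff_degree_eq_zero.mpr hd)
    obtain ⟨x, hx⟩ := IsAlgClosed.exists_root h hdeg
    obtain ⟨a, ha⟩ := hg x
    obtain ⟨q, hq⟩ := hdvd a
    apply ha
    rw [hq, eval_mul, hx.eq_zero, zero_mul]
  have h1 : (1 : k[X]) ∈ Ideal.span (Set.range g) := by rw [htop]; trivial
  obtain ⟨c0, hc0⟩ := (Ideal.mem_span_range_iff_exists_fun).mp h1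
  set r := g a0 with hrdef
  set C : k[X] := c0 a0 + ∑ a ∈ Finset.univ.erase a0, (c0 a / r) * g a with hC
  have hsum : C * r + ∑ a ∈ Finset.univ.erase a0, (c0 a % r) * g a = 1 := by
    rw [← hc0, ← Finset.add_sum_erase Finset.univ (fun a => c0 a * g a) (Finset.mem_univ a0), hC,
      add_mul, add_assoc, Finset.sum_mul, ← Finset.sum_add_distrib]
    congr 1
    apply Finset.sum_congr rfl
    intro a _
    have h2 := EuclideanDomain.div_add_mod (c0 a) r
    calc c0 a / r * g a * r + c0 a % r * g a = (r * (c0 a / r) + c0 a % r) * g a := by ring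
      _ = c0 a * g a := by rw [h2]
  have hmod : ∀ a, (c0 a % r).natDegree ≤ r.natDegree := fun a =>
    natDegree_le_natDegree (degree_mod_lt (c0 a) hr).le
  refine ⟨fun a => if a = a0 then C else c0 a % r, ?_, ?_⟩
  · intro a
    by_cases ha : a = a0
    · simp only [ha, if_true]
      by_cases hC0 : C = 0
      · rw [hC0, natDegree_zero]
        exact Nat.zero_le _
      · have h3 : C * r = 1 - ∑ a ∈ Finset.univ.erase a0, (c0 a % r) * g a := by
          rw [← hsum]
          ring
        have h4 : (C * r).natDegree = C.natDegree + r.natDegree := natDegree_mul hC0 hr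
        have h5 : (C * r).natDegree ≤ r.natDegree + M := by
          rw [h3]
          refine (natDegree_sub_le _ _).trans (max_le ?_ ?_)
          · rw [natDegree_one]
            exact Nat.zero_le _
          · refine natDegree_sum_le_of_forall_le _ _ fun b _ => ?_
            exact natDegree_mul_le.trans (Nat.add_le_add (hmod b) (hM b))
        omega
    · simp only [ha, if_false]
      exact (hmod a).trans (hM a0)
  · rw [← Finset.add_sum_erase Finset.univ _ (Finset.mem_univ a0)]
    rw [← hsum]
    simp only [if_true]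
    congr 1
    apply Finset.sum_congr rfl
    intro a ha
    rw [if_neg (Finset.ne_of_mem_erase ha)]

theorem toPoly_coeff_eq {M s : ℕ} (c : Fin s → k[X]) (hc : ∀ a, (c a).natDegree ≤ M) (a : Fin s) :
    toPoly (fun (n : Fin (M + 1)) (a : Fin s) => (c a).coeff n) a = c a := by
  ext n
  by_cases hn : n < M + 1
  · exact toPoly_coeff (fun (n : Fin (M + 1)) (a : Fin s) => (c a).coeff n) a ⟨n, hn⟩
  · rw [coeff_eq_zero_of_natDegree_lt, coeff_eq_zero_of_natDegree_lt]
    · exact lt_of_le_of_lt (hc a) (by omega)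
    · exact lt_of_le_of_lt (natDegree_toPoly_le _ a) (by omega)

/-- the degree of the certificates of the curves of degree `d` is bounded -/
theorem exists_cert_bound [IsAlgClosed k] {N s : ℕ} (G : Fin s → MvPolynomial (Fin (N + 1)) k)
    (e : Fin s → ℕ) (hG : ∀ i, (G i).IsHomogeneous (e i)) (d : ℕ) :
    ∃ M : ℕ, ∀ F : Fin (d + 1) → Fin (N + 1) → k,
      (∀ x : k, ∃ i, MvPolynomial.aeval (val F 1 x) (G i) ≠ 0) →
      ∃ c : Fin s → Fin (M + 1) → k,
        ∑ a, toPoly (fun (n : Fin (M + 1)) (a : Fin s) => c a n) a *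
          MvPolynomial.aeval (toPoly F) (G a) = 1 := by
  refine ⟨d * ∑ a, e a, fun F hF => ?_⟩
  have h1 : ∀ a, (MvPolynomial.aeval (toPoly F) (G a)).natDegree ≤ d * ∑ a, e a := by
    intro a
    refine (VFS.natDegree_aeval_form (natDegree_toPoly_le F) (hG a)).trans ?_
    exact Nat.mul_le_mul_left _ (Finset.single_le_sum (f := e) (fun _ _ => Nat.zero_le _)
      (Finset.mem_univ a))
  obtain ⟨c, hc, hsum⟩ := exists_bezout_bound (fun a => MvPolynomial.aeval (toPoly F) (G a)) h1
    (fun x => by
      obtain ⟨i, hi⟩ := hF x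
      refine ⟨i, ?_⟩
      rw [eval_aeval_toPoly]
      exact hi)
  refine ⟨fun a n => (c a).coeff n, ?_⟩
  rw [← hsum]
  apply Finset.sum_congr rfl
  intro a _
  congr 1
  exact toPoly_coeff_eq c hc a

end Pool.Agent.RC
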