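import Pool.Agent.Lib_MP_1858fb_w.Dual
import Pool.Agent.Lib_MP_1858fb_w.FamSys
import Pool.Agent.Lib_MP_1858fb_s.Conv

/-!
# MP_0ac1ea_ag: curves over the dual numbers give tangent tuples of forms
-/

set_option autoImplicit false

namespace Pool.Agent.RC

open MvPolynomial Pool.Agent.VF TrivSqZeroExt

section

variable {k : Type} [Field k]

theorem val_dual {κ : Type} {d : ℕ} (F G : Fin (d + 1) → κ → k) (x : k) (i : κ) :
    val (fun j i => (inl (F j i) + inr (G j i) : TrivSqZeroExt k k)) 1
      (algebraMap k (TrivSqZeroExt k k) x) i = inl (val F 1 x i) + inr (val G 1 x i) := by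
  have hx : algebraMap k (TrivSqZeroExt k k) x = inl x := rfl
  unfold val
  rw [hx]
  ext
  · simp only [fst_sum, fst_mul, fst_add, fst_inl, fst_inr, add_zero, fst_pow, fst_one]
  · simp only [snd_sum, snd_mul, snd_add, snd_inl, snd_inr, zero_add, fst_add, fst_inl, fst_inr,
      add_zero, fst_mul, fst_pow, fst_one, snd_pow, smul_eq_mul, snd_one]
    apply Finset.sum_congr rfl
    intro j _
    simp

theorem isTangent_of_dual [Infinite k] {N d : ℕ} {V : Set (Fin (N + 1) → k)} (hV : LocClosed V)
    (F G : Fin (d + 1) → Fin (N + 1) → k)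
    (h : ∀ E ∈ van V, ∀ x : k, aeval (val (fun j i => (inl (F j i) + inr (G j i) :
      TrivSqZeroExt k k)) 1 (algebraMap k (TrivSqZeroExt k k) x)) E = 0) : IsTangent V F G := by
  have key : ∀ E ∈ van V, ∀ x : k, dif E (val F 1 x) (val G 1 x) = 0 := by
    intro E hE x
    have h1 := h E hE x
    have h2 : val (fun j i => (inl (F j i) + inr (G j i) : TrivSqZeroExt k k)) 1
        (algebraMap k (TrivSqZeroExt k k) x) =
        fun i => (inl (val F 1 x i) + inr (val G 1 x i) : TrivSqZeroExt k k) :=
      funext fun i => val_dual F G x i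
    rw [h2, aeval_dual] at h1
    have h3 := congrArg snd h1
    simpa [dif, smul_eq_mul] using h3
  have h4 := VFS.isTangent_of_sec hV (f := toPoly F) (g := toPoly G) (d := d) (e := d)
    (natDegree_toPoly_le F) ⟨natDegree_toPoly_le G, fun E hE => by
      apply Polynomial.funext
      intro x
      unfold VFS.dp
      rw [Polynomial.eval_finset_sum, Polynomial.eval_zero]
      rw [← key E hE x]
      unfold dif
      apply Finset.sum_congr rfl
      intro j _
      rw [Polynomial.eval_mul, eval_aeval_toPoly, eval_toPoly]⟩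
  have h5 : VFS.form d (toPoly F) = F := by
    funext j i
    exact toPoly_coeff F i j
  have h6 : VFS.form d (toPoly G) = G := by
    funext j i
    exact toPoly_coeff G i j
  rw [h5, h6] at h4
  exact h4

end

end Pool.Agent.RC
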