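import Pool.Agent.Lib_MP_1858fb_rc.Lift
import Pool.Agent.Lib_MP_1858fb_rc.Dual
import Pool.Agent.Lib_MP_1858fb_rc.Cert
import Pool.Agent.Lib_MP_1858fb_w.Van1
import Pool.Agent.Lib_MP_1858fb_w.Van3
import Pool.Agent.Lib_MP_1858fb_w.Van4
import Pool.Agent.Lib_MP_1858fb_w.Van6

/-!
# MP_0ac1ea_ag: if a dense set of pairs of points is joined by curves of degree `d`, then there is
a very free curve
-/

set_option autoImplicit false

namespace Pool.Agent.RC

open MvPolynomial Pool.Agent.VF TrivSqZeroExt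

/-- lifting a simple root to the dual numbers -/
theorem exists_root_dual {k : Type} [Field k] (p : Polynomial (TrivSqZeroExt k k)) (θ : k)
    (h0 : fst (p.eval (inl θ)) = 0) (h1 : fst (p.derivative.eval (inl θ)) ≠ 0) :
    ∃ t : TrivSqZeroExt k k, fst t = θ ∧ p.eval t = 0 := by
  have hu : IsUnit (p.derivative.eval (inl θ)) :=
    TrivSqZeroExt.isUnit_iff_isUnit_fst.mpr (isUnit_iff_ne_zero.mpr h1)
  obtain ⟨u, hu⟩ := hu
  set y : TrivSqZeroExt k k := -(p.eval (inl θ)) * ((u⁻¹ : (TrivSqZeroExt k k)ˣ) :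
    TrivSqZeroExt k k) with hy
  have hy0 : fst y = 0 := by
    rw [hy, fst_mul, fst_neg, h0, neg_zero, zero_mul]
  have hy2 : y ^ 2 = 0 := by
    rw [pow_two]
    ext
    · rw [fst_mul, hy0, zero_mul, fst_zero]
    · rw [snd_mul, hy0]
      simp
  refine ⟨inl θ + y, ?_, ?_⟩
  · rw [fst_add, hy0, fst_inl, add_zero]
  · have h2 := Polynomial.aeval_add_of_sq_eq_zero p (inl θ) y hy2
    rw [Polynomial.aeval_def, Polynomial.aeval_def, Polynomial.aeval_def, Algebra.algebraMap_self,
      Polynomial.eval₂_id, Polynomial.eval₂_id, Polynomial.eval₂_id, ← hu] at h2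
    rw [h2, hy]
    have h3 : (u : TrivSqZeroExt k k) * ((u⁻¹ : (TrivSqZeroExt k k)ˣ) : TrivSqZeroExt k k) = 1 :=
      u.mul_inv
    linear_combination (-(p.eval (inl θ))) * h3

/-- If a dense set of pairs of points of `V` is joined by curves of degree `d`, then there is a
curve of degree `d` along which the sections of the tangent bundle twisted by `-1` span. -/
theorem exists_span_of_dense {k : Type} [Field k] [CharZero k] [IsAlgClosed k]
    {N c d : ℕ} {V : Set (Fin (N + 1) → k)} (hV : LocClosed V) (hirr : Irred V)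
    (hsm : ∀ x ∈ V, SmoothAt c V x) (hd : 1 ≤ d)
    (h : ∀ g : MvPolynomial (Fin (N + 1) ⊕ Fin (N + 1)) k, g ∉ van (prodSet V V) →
      ∃ w ∈ V, ∃ z ∈ V, aeval (Sum.elim w z) g ≠ 0 ∧ ∃ F : Fin (d + 1) → Fin (N + 1) → k,
        IsCurve V F ∧ F 0 = w ∧ F (Fin.last d) = z) :
    ∃ F : Fin (d + 1) → Fin (N + 1) → k, IsCurve V F ∧ Span V F 1 := by
  classical
  haveI : Infinite k := IsAlgClosed.instInfinite
  obtain ⟨s, G, e, hGe, -, hG⟩ := exists_open_forms hV
  obtain ⟨M, hM⟩ := exists_cert_bound G e hGe d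
  obtain ⟨g, E, hE⟩ := Submodule.fg_iff_exists_fin_generating_family.1
    ((isNoetherianRing_iff_ideal_fg (MvPolynomial (Fin (N + 1)) k)).1 inferInstance (van V))
  have hE' : Ideal.span (Set.range E) = van V := hE
  let B := MvPolynomial (Fin (N + 1) ⊕ Fin (N + 1)) k
  let w0 : Fin (N + 1) → B := fun i => X (Sum.inl i)
  let z0 : Fin (N + 1) → B := fun i => X (Sum.inr i)
  let cm : Fin 0 → k := fun l => l.elim0
  let vs : Fin 0 → Fin (N + 1) → k := fun l => l.elim0
  obtain ⟨D, P, Q, hD, hl, hdeg, hfam⟩ := lift_family_ring (irred_prodSet hirr hirr)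
    (sys d M E G cm vs w0 z0) (by
    intro b hb
    obtain ⟨w, hw, z, hz, hne, F, hF, hF0, hF1⟩ := h b hb
    obtain ⟨c, hc⟩ := hM F (fun x => ((hG _).1 (hF 1 x (Or.inl one_ne_zero))).2)
    let φ' : B →ₐ[k] k := aeval (Sum.elim w z)
    refine ⟨k, inferInstance, (φ' : B →+* k), hne, fun E' hE' => hE' _ ⟨hw, hz⟩,
      Sum.elim (fun p => F p.1 p.2) (fun p => c p.1 p.2), ?_⟩
    refine (sys_iff d M G cm vs w0 z0 hE' φ' _).2 ?_
    refine ⟨fun i => ?_, fun i => ?_, fun l => l.elim0, fun E1 hE1 => ?_, hc⟩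
    · have h1 : φ' (w0 i) = w i := aeval_X _ _
      rw [h1, ← hF0]
      rfl
    · have h1 : φ' (z0 i) = z i := aeval_X _ _
      rw [h1, ← hF1]
      rfl
    · apply Polynomial.funext
      intro x
      rw [eval_aeval_toPoly, Polynomial.eval_zero]
      exact hE1 _ (hF 1 x (Or.inl one_ne_zero)))
  obtain ⟨w, hw, z, hz, hDne, -⟩ := h D hD
  set φ : B →ₐ[k] k := aeval (Sum.elim w z) with hφ
  have hφX0 : ∀ i, φ (w0 i) = w i := fun i => aeval_X _ _
  have hφX1 : ∀ i, φ (z0 i) = z i := fun i => aeval_X _ _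
  -- a root
  obtain ⟨θ, hθ⟩ : ∃ θ : k, P.eval₂ (φ : B →+* k) θ = 0 := by
    have h1 : (P.map (φ : B →+* k)).natDegree = P.natDegree :=
      Polynomial.natDegree_map_of_leadingCoeff_ne_zero _ (by rw [hl]; exact hDne)
    obtain ⟨θ, hθ⟩ := IsAlgClosed.exists_root (P.map (φ : B →+* k)) (by
      intro h0
      have h2 : (P.map (φ : B →+* k)).natDegree = 0 := by
        rw [Polynomial.natDegree, h0]
        rfl
      omega)
    exact ⟨θ, by rw [← Polynomial.eval_map]; exact hθ⟩
  have hkill : ∀ E ∈ van (prodSet V V), (φ : B →+* k) E = 0 := fun E' hE' => hE' _ ⟨hw, hz⟩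
  set δ : k := (φ D)⁻¹ with hδdef
  have hδ : (φ : B →+* k) D * δ = 1 := mul_inv_cancel₀ hDne
  obtain ⟨hsimple, hsol⟩ := hfam k (φ : B →+* k) hkill δ θ hδ hθ
  set F0 : Fin (d + 1) → Fin (N + 1) → k :=
    fun j i => δ * (Q (Sum.inl (j, i))).eval₂ (φ : B →+* k) θ with hF0
  have hSol0 : Sol V G cm vs w z F0 (toPoly fun (n : Fin (M + 1)) (a : Fin s) =>
      δ * (Q (Sum.inr (a, n))).eval₂ (φ : B →+* k) θ) := by
    have h3 := (sys_iff d M G cm vs w0 z0 hE' φ _).1 hsol
    have e1 : (fun i => φ (w0 i)) = w := funext hφX0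
    have e2 : (fun i => φ (z0 i)) = z := funext hφX1
    rw [e1, e2] at h3
    exact h3
  have hF0c : IsCurve V F0 := hSol0.isCurve hz (fun x hx a ha => smul_mem_of_locClosed hV hx ha) hG
  have hval0 : val F0 1 0 = w := by
    rw [V4.val_one_zero]
    exact funext hSol0.start
  refine ⟨F0, hF0c, span_one_of_sections hsm hF0c ?_ hd⟩
  intro ξ hξ
  rw [hval0] at hξ
  -- the deformation over the dual numbers
  let R := TrivSqZeroExt k k
  let ψ : B →ₐ[k] R := aeval (Sum.elim (fun i => (inl (w i) + inr (ξ i) : R)) (fun i => inl (z i)))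
  have hψ0 : ∀ i, ψ (w0 i) = inl (w i) + inr (ξ i) := fun i => aeval_X _ _
  have hψ1 : ∀ i, ψ (z0 i) = inl (z i) := fun i => aeval_X _ _
  let fk : R →ₐ[k] k := fstHom k k k
  have hfψ : (fk : R →+* k).comp (ψ : B →+* R) = (φ : B →+* k) := by
    have h1 : fk.comp ψ = φ := by
      apply MvPolynomial.algHom_ext
      rintro (i | i)
      · have h2 : (fk.comp ψ) (X (Sum.inl i)) = fst (ψ (w0 i)) := rfl
        rw [h2, hψ0, fst_add, fst_inl, fst_inr, add_zero]
        exact (hφX0 i).symm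
      · have h2 : (fk.comp ψ) (X (Sum.inr i)) = fst (ψ (z0 i)) := rfl
        rw [h2, hψ1, fst_inl]
        exact (hφX1 i).symm
    rw [← h1]
    rfl
  have hfψ' : ∀ b, fst (ψ b) = φ b := fun b =>
    congrArg (fun f : B →+* k => f b) hfψ
  have hkillψ : ∀ E ∈ van (prodSet V V), (ψ : B →+* R) E = 0 := by
    intro E1 hE1
    rw [van_prodSet] at hE1
    have h1 : (Ideal.map (rename Sum.inl : _ →ₐ[k] B) (van V) ⊔
        Ideal.map (rename Sum.inr : _ →ₐ[k] B) (van V)) ≤ RingHom.ker ψ := by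
      refine sup_le ?_ ?_
      · rw [Ideal.map_le_iff_le_comap]
        intro E2 hE2
        rw [Ideal.mem_comap, RingHom.mem_ker]
        change ψ (rename Sum.inl E2) = 0
        have h2 : ψ (rename Sum.inl E2) =
            aeval (fun i => (inl (w i) + inr (ξ i) : R)) E2 := by
          change aeval _ (rename Sum.inl E2) = _
          rw [aeval_rename]
          rfl
        rw [h2, aeval_dual, hE2 w hw]
        have h3 : ∑ j, aeval w (pderiv j E2) • ξ j = 0 := hξ E2 hE2
        rw [h3, inl_zero, inr_zero, add_zero]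
      · rw [Ideal.map_le_iff_le_comap]
        intro E2 hE2
        rw [Ideal.mem_comap, RingHom.mem_ker]
        change ψ (rename Sum.inr E2) = 0
        have h2 : ψ (rename Sum.inr E2) =
            aeval (fun i => (inl (z i) + inr ((0 : Fin (N + 1) → k) i) : R)) E2 := by
          change aeval _ (rename Sum.inr E2) = _
          rw [aeval_rename]
          congr 2
          funext i
          simp
        rw [h2, aeval_dual, hE2 z hz]
        simp
    exact h1 hE1
  have hDu : IsUnit (ψ D) :=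
    TrivSqZeroExt.isUnit_iff_isUnit_fst.mpr (isUnit_iff_ne_zero.mpr (by rw [hfψ']; exact hDne))
  obtain ⟨δ', hδ'⟩ := hDu.exists_right_inv
  have hpe : ∀ (p : Polynomial B) (t : R), fst t = θ →
      fst ((p.map (ψ : B →+* R)).eval t) = p.eval₂ (φ : B →+* k) θ := by
    intro p t ht
    have h1 : fst ((p.map (ψ : B →+* R)).eval t) = (fk : R →+* k) (p.eval₂ (ψ : B →+* R) t) := by
      rw [Polynomial.eval_map]
      rfl
    rw [h1, Polynomial.hom_eval₂, hfψ]
    congr 1
  obtain ⟨t, ht, htr⟩ := exists_root_dual (P.map (ψ : B →+* R)) θ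
    (by rw [hpe P (inl θ) rfl]; exact hθ)
    (by
      rw [Polynomial.derivative_map, hpe _ (inl θ) rfl]
      exact hsimple.ne_zero)
  rw [Polynomial.eval_map] at htr
  obtain ⟨-, hsolψ⟩ := hfam R (ψ : B →+* R) hkillψ δ' t hδ' htr
  set Fε : Fin (d + 1) → Fin (N + 1) → R :=
    fun j i => δ' * (Q (Sum.inl (j, i))).eval₂ (ψ : B →+* R) t with hFε
  have hSolε := (sys_iff d M G cm vs w0 z0 hE' ψ _).1 hsolψ
  have hδfst : fst δ' = δ := by
    have h1 : fst (ψ D * δ') = 1 := by
      rw [hδ', fst_one]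
    rw [fst_mul, hfψ'] at h1
    exact eq_inv_of_mul_eq_one_right h1
  have hFεfst : ∀ j i, fst (Fε j i) = F0 j i := by
    intro j i
    have h1 := hpe (Q (Sum.inl (j, i))) t ht
    rw [Polynomial.eval_map] at h1
    have h5 : fst (Fε j i) = fst δ' * fst ((Q (Sum.inl (j, i))).eval₂ (ψ : B →+* R) t) :=
      fst_mul _ _
    rw [h5, hδfst, h1]
  have hFεeq : Fε = fun j i => (inl (F0 j i) + inr (snd (Fε j i)) : R) := by
    funext j i
    rw [← hFεfst]
    exact (inl_fst_add_inr_snd_eq _).symm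
  refine ⟨fun j i => snd (Fε j i), ?_, ?_, ?_⟩
  · refine isTangent_of_dual hV F0 (fun j i => snd (Fε j i)) ?_
    intro E1 hE1 x
    rw [← hFεeq, ← eval_aeval_toPoly]
    have h1 : aeval (toPoly Fε) E1 = 0 := hSolε.eqs E1 hE1
    rw [h1, Polynomial.eval_zero]
  · rw [V4.val_zero_one]
    funext i
    have h1 : Fε (Fin.last d) i = ψ (z0 i) := hSolε.stop i
    rw [h1, hψ1, snd_inl]
    rfl
  · rw [V4.val_one_zero]
    funext i
    have h1 : Fε 0 i = ψ (w0 i) := hSolε.start i
    change snd (Fε 0 i) = ξ i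
    rw [h1, hψ0, snd_add, snd_inl, snd_inr, zero_add]

end Pool.Agent.RC
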