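import Pool.Agent.Lib_MP_1858fb_w.Generic
import Pool.Agent.Lib_MP_1858fb_w.Defs2

/-!
# MP_0ac1ea_ag: generic solutions over an irreducible set of points, lifted to polynomials,
for all rings
-/

set_option autoImplicit false

namespace Pool.Agent.RC

open Polynomial Pool.Agent.VF

/-- A finite system with coefficients in the polynomial ring which is generically solvable over
the irreducible set `W` has a family of solutions (over every ring). -/
theorem lift_family_ring {k : Type} [Field k] [CharZero k] {τ σ : Type} [Finite σ]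
    {W : Set (τ → k)} (hirr : Irred W) (S : Finset (MvPolynomial σ (MvPolynomial τ k)))
    (h : ∀ g : MvPolynomial τ k, g ∉ van W → ∃ (R : Type) (_ : Field R)
      (φ : MvPolynomial τ k →+* R), φ g ≠ 0 ∧ (∀ E ∈ van W, φ E = 0) ∧
      ∃ x : σ → R, ∀ f ∈ S, MvPolynomial.eval₂ φ x f = 0) :
    ∃ (D : MvPolynomial τ k) (P : (MvPolynomial τ k)[X]) (Q : σ → (MvPolynomial τ k)[X]),
      D ∉ van W ∧ P.leadingCoeff = D ∧ 0 < P.natDegree ∧
      ∀ (R : Type) [CommRing R] (φ : MvPolynomial τ k →+* R), (∀ E ∈ van W, φ E = 0) →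
        ∀ δ θ : R, φ D * δ = 1 → P.eval₂ φ θ = 0 →
        IsUnit ((derivative P).eval₂ φ θ) ∧
        ∀ f ∈ S, MvPolynomial.eval₂ φ (fun s => δ * (Q s).eval₂ φ θ) f = 0 := by
  classical
  have hprime : (van W).IsPrime := by
    refine ⟨?_, fun {a b} hab => hirr.2 a b hab⟩
    intro htop
    obtain ⟨y, hy⟩ := hirr.1
    have h1 : (1 : MvPolynomial τ k) ∈ van W := htop ▸ Submodule.mem_top
    have h2 := h1 y hy
    rw [map_one] at h2
    exact one_ne_zero h2
  let B := MvPolynomial τ k ⧸ van W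
  haveI : IsDomain B := Ideal.Quotient.isDomain _
  haveI : CharZero B := charZero_of_injective_algebraMap (algebraMap k B).injective
  let π : MvPolynomial τ k →+* B := Ideal.Quotient.mk (van W)
  have hπs : Function.Surjective π := Ideal.Quotient.mk_surjective
  have hliftmk : ∀ (R : Type) [CommRing R] (φ : MvPolynomial τ k →+* R)
      (hφ : ∀ E ∈ van W, φ E = 0), (Ideal.Quotient.lift (van W) φ hφ).comp π = φ :=
    fun R _ φ hφ => RingHom.ext fun a => Ideal.Quotient.lift_mk (van W) φ hφ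
  obtain ⟨DB, PB, QB, hD, hP, hl, hfam⟩ := Pool.Agent.VFree.generic_family
    (S.image (MvPolynomial.map π)) (by
    intro b hb
    obtain ⟨g, rfl⟩ := hπs b
    have hg : g ∉ van W := fun hg => hb (Ideal.Quotient.eq_zero_iff_mem.2 hg)
    obtain ⟨R, _, φ, hφg, hφW, x, hx⟩ := h g hg
    refine ⟨R, _, Ideal.Quotient.lift (van W) φ hφW, ?_, x, ?_⟩
    · have : Ideal.Quotient.lift (van W) φ hφW (π g) = φ g :=
        congrArg (fun f : MvPolynomial τ k →+* R => f g) (hliftmk R φ hφW)
      rw [this]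
      exact hφg
    · intro f hf
      obtain ⟨f', hf', rfl⟩ := Finset.mem_image.1 hf
      rw [MvPolynomial.eval₂_map, hliftmk R φ hφW]
      exact hx f' hf')
  have hlift : ∀ p : B[X], ∃ q : (MvPolynomial τ k)[X], q.map π = p ∧ q.degree = p.degree := by
    intro p
    exact mem_lifts_and_degree_eq ((mem_lifts_of_surjective hπs) p)
  obtain ⟨P, hPm, hPd⟩ := hlift PB
  choose Q hQm _ using fun s => hlift (QB s)
  have hdeg : P.natDegree = PB.natDegree := natDegree_eq_of_degree_eq hPd
  have hDm : π P.leadingCoeff = DB := by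
    rw [leadingCoeff, ← coeff_map, hPm, hdeg]
    exact hl
  refine ⟨P.leadingCoeff, P, Q, ?_, rfl, hdeg ▸ hP, ?_⟩
  · intro h0
    apply hD
    rw [← hDm]
    exact Ideal.Quotient.eq_zero_iff_mem.2 h0
  intro R _ a haW δ θ hδ hθ
  let φ : B →+* R := Ideal.Quotient.lift (van W) a haW
  have hφ : φ.comp π = a := hliftmk R a haW
  have hφ' : ∀ g, φ (π g) = a g := fun g =>
    congrArg (fun f : MvPolynomial τ k →+* R => f g) hφ
  have hev : ∀ p : (MvPolynomial τ k)[X], (p.map π).eval₂ φ θ = p.eval₂ a θ := by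
    intro p
    rw [eval₂_map, hφ]
  have hu : a P.leadingCoeff * δ = 1 := hδ
  obtain ⟨h1, h2⟩ := hfam R φ θ (by
    rw [← hDm, hφ']
    exact IsUnit.of_mul_eq_one _ hu) (by
    rw [← hPm, hev]
    exact hθ)
  refine ⟨?_, ?_⟩
  · rw [← hPm, derivative_map, hev] at h1
    exact h1
  · intro f hf
    have h3 := h2 (fun s => δ * (Q s).eval₂ a θ) (by
      intro s
      rw [← hDm, hφ', ← mul_assoc, hu, one_mul, ← hQm, hev]) (MvPolynomial.map π f)
        (Finset.mem_image_of_mem _ hf)
    rw [MvPolynomial.eval₂_map, hφ] at h3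
    exact h3

end Pool.Agent.RC
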